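import Mathlib

set_option autoImplicit false

namespace Pool.Agent.Results.MP_fc6768_gt.FinUnb

open Filter Set Topology

universe u

/-- Open `ω`-covers. -/
def Om {Z : Type u} [TopologicalSpace Z] (𝓤 : Set (Set Z)) : Prop :=
  (∀ U ∈ 𝓤, IsOpen U) ∧ univ ∉ 𝓤 ∧ ∀ F : Set Z, F.Finite → ∃ U ∈ 𝓤, F ⊆ U

/-- Open `γ`-covers. -/
def Ga {Z : Type u} [TopologicalSpace Z] (𝓤 : Set (Set Z)) : Prop :=
  (∀ U ∈ 𝓤, IsOpen U) ∧ 𝓤.Infinite ∧ ∀ z, {U ∈ 𝓤 | z ∉ U}.Finite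

/-- The selection principle `S₁(A, B)`. -/
def S1 {Z : Type u} (A B : Set (Set Z) → Prop) : Prop := ∀ 𝓤 : ℕ → Set (Set Z),
  (∀ n, A (𝓤 n)) → ∃ U : ℕ → Set Z, (∀ n, U n ∈ 𝓤 n) ∧ B (range U)

/-- `ℵ₁`-fin-unbounded sets. -/
def FU (X : Set (ℕ → Bool)) : Prop := (∀ x ∈ X, {i | x i = true}.Infinite) ∧ ¬ X.Countable ∧
  ∀ d : ℕ → ℕ, StrictMono d → ∃ S ⊆ X, S.Countable ∧ ∀ F ⊆ X \ S, F.Finite → F.Nonempty →
    ∃ᶠ n in atTop, ∀ x ∈ F, d n ≤ Nat.nth (x · = true) n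

/-- The finite subsets of `ℕ`. -/
def Fi : Set (ℕ → Bool) := {x | {i | x i = true}.Finite}

theorem gam {Y : Type u} [TopologicalSpace Y] (h : S1 (Z := Y) Om Ga) (𝓦 : ℕ → Set (Set Y))
    (h1 : ∀ n, ∀ U ∈ 𝓦 n, IsOpen U) (h2 : ∀ n, ∀ F : Set Y, F.Finite → ∃ U ∈ 𝓦 n, F ⊆ U) :
    ∃ (φ : ℕ → ℕ) (V : ℕ → Set Y), Function.Injective φ ∧ (∀ j, V j ∈ 𝓦 (φ j)) ∧
      ∀ y, ∀ᶠ j in atTop, y ∈ V j := by
  by_cases c : ∃ᶠ n in atTop, univ ∈ 𝓦 n
  · obtain ⟨φ, a, b⟩ := extraction_of_frequently_atTop c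
    exact ⟨φ, fun _ => univ, a.injective, b, fun _ => .of_forall fun _ => trivial⟩
  obtain ⟨m, hm⟩ := eventually_atTop.1 (not_frequently.1 c)
  obtain ⟨U, u1, -, u2, u3⟩ := h (fun n => 𝓦 (n + m)) fun n => ⟨h1 _, hm _ (by omega), h2 _⟩
  choose ψ hψ using fun j => (u2.natEmbedding _ j).2
  have e : Function.Injective fun j => (u2.natEmbedding _ j).1 :=
    Subtype.val_injective.comp (u2.natEmbedding _).injective
  refine ⟨fun j => ψ j + m, fun j => U (ψ j), fun a b f => e ?_, fun j => u1 _, fun y => ?_⟩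
  · have f' : ψ a = ψ b := Nat.add_right_cancel f
    exact (hψ a).symm.trans (f' ▸ hψ b)
  rw [← Nat.cofinite_eq_atTop]
  refine ((u3 y).preimage e.injOn).subset fun j hj => ?_
  exact ⟨(u2.natEmbedding _ j).2, fun f => hj (show y ∈ U (ψ j) by rw [hψ]; exact f)⟩

theorem stage {X : Set (ℕ → Bool)} (hX : FU X) {Y : Type u} [TopologicalSpace Y]
    (h : S1 (Z := Y) Om Ga) (𝓤 : ℕ → Set (Set ((X ∪ Fi : Set _) × Y))) (hU : ∀ n, Ga (𝓤 n))
    (S : Set (X ∪ Fi : Set _)) (hS : S.Countable) : ∃ S' : Set (X ∪ Fi : Set _), S'.Countable ∧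
      ∃ U : ℕ → Set ((X ∪ Fi : Set _) × Y), (∀ n, U n ∈ 𝓤 n \ {univ}) ∧
        ∀ F : Set ((X ∪ Fi : Set _) × Y), F.Finite → (∀ p ∈ F, p.1 ∈ S ∨ p.1 ∉ S') →
          ∃ n, F ⊆ U n := by
  classical
  let tq : ∀ n, (Fin n → Bool) → (X ∪ Fi : Set _) := fun n σ =>
    ⟨fun i => if h : i < n then σ ⟨i, h⟩ else false, Or.inr ((finite_lt_nat n).subset
      fun i hi => by_contra fun c => by
        have c' : ¬ i < n := c
        simp [c'] at hi)⟩
  obtain ⟨s, hs⟩ := (hS.insert (tq 0 fun _ => false)).exists_eq_range (insert_nonempty _ _)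
  obtain ⟨φ, V, a1, a2, a3⟩ := gam h (fun n => {V | IsOpen V ∧ ∃ U ∈ 𝓤 n \ {univ}, ∃ c, ∀ y ∈ V,
      (∀ k ≤ n, (s k, y) ∈ U) ∧ ∀ z : (X ∪ Fi : Set _), (∀ i, n ≤ i → i < c → z.1 i = false) →
        (z, y) ∈ U}) (fun _ _ h => h.1) fun n F hF => by
    have b1 : ((s '' Iic n ∪ range (tq n)) ×ˢ F).Finite :=
      (((finite_Iic n).image s).union (finite_range _)).prod hF
    obtain ⟨U, u1, u2⟩ := (hU n).2.1.exists_notMem_finite
      ((b1.biUnion fun p _ => (hU n).2.2 p).insert univ)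
    have u3 : ∀ p ∈ (s '' Iic n ∪ range (tq n)) ×ˢ F, p ∈ U := fun p hp =>
      by_contra fun c => u2 (Or.inr (mem_biUnion hp ⟨u1, c⟩))
    have u4 := (hU n).1 U u1
    have b2 : ∀ y ∈ F, ∀ᶠ c in atTop, ∀ᶠ w in 𝓝 y, (∀ k ∈ Iic n, (s k, w) ∈ U) ∧
        ∀ z : (X ∪ Fi : Set _), (∀ i, n ≤ i → i < c → z.1 i = false) → (z, w) ∈ U := fun y hy => by
      have b3 : ∀ σ, ∀ᶠ p in atTop ×ˢ 𝓝 y, ∀ z : (X ∪ Fi : Set _),
          (∀ i < p.1, z.1 i = (tq n σ).1 i) → (z, p.2) ∈ U := fun σ => by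
        obtain ⟨a, b, c1, c2, c3, c4, c5⟩ := isOpen_prod_iff.1 u4 (tq n σ) y
          (u3 _ ⟨Or.inr ⟨σ, rfl⟩, hy⟩)
        obtain ⟨O, c6, rfl⟩ := isOpen_induced_iff.1 c1
        obtain ⟨I, t, c7, c8⟩ := isOpen_pi_iff.1 c6 _ c3
        refine ((eventually_gt_atTop (I.sup id)).prod_mk (c2.mem_nhds c4)).mono
          fun p hp z hz => c5 ⟨c8 fun i hi => ?_, hp.2⟩
        rw [hz i ((Finset.le_sup (f := id) hi).trans_lt hp.1)]
        exact (c7 i hi).2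
      refine (eventually_all.2 b3).curry.mono fun c hc => .and
        ((eventually_all_finite (finite_Iic n)).2 fun k hk => (u4.preimage
          (Continuous.prodMk_right (s k))).mem_nhds (u3 _ ⟨Or.inl ⟨k, hk, rfl⟩, hy⟩))
            (hc.mono fun w hw z hz => hw (fun i => z.1 i) z fun i hi => ?_)
      by_cases e : i < n
      · simp only [tq, dif_pos e]
      · simpa only [tq, dif_neg e] using hz i (not_lt.1 e) hi
    obtain ⟨c, hc⟩ := ((eventually_all_finite hF).2 b2).exists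
    exact ⟨_, ⟨isOpen_interior, U, ⟨u1, fun e => u2 (Or.inl e)⟩, c, fun y hy => interior_subset
      (s := {w | (∀ k ∈ Iic n, (s k, w) ∈ U) ∧ ∀ z : (X ∪ Fi : Set _),
        (∀ i, n ≤ i → i < c → z.1 i = false) → (z, w) ∈ U}) hy⟩,
      fun y hy => mem_interior_iff_mem_nhds.2 (hc y hy)⟩
  choose W w1 c w2 using fun j => (a2 j).2
  choose U0 u0 using fun n => ((hU n).2.1.diff (finite_singleton univ)).nonempty
  obtain ⟨ψ, p1, p2⟩ : ∃ ψ : ℕ → ℕ, StrictMono ψ ∧ ∀ j, c (ψ j) + φ (ψ j) < φ (ψ (j + 1)) := by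
    choose g g1 g2 using fun j => (((a1.nat_tendsto_atTop.eventually_gt_atTop
      (c j + φ j))).and (eventually_gt_atTop j)).exists
    exact ⟨fun j => j.rec 0 fun _ a => g a, strictMono_nat_of_lt_succ fun j => g2 _, fun j => g1 _⟩
  have p3 : StrictMono (φ ∘ ψ) := strictMono_nat_of_lt_succ fun j =>
    (Nat.le_add_left _ _).trans_lt (p2 j)
  obtain ⟨S', -, s2, s3⟩ := hX.2.2 (fun n => φ (ψ (n + n * n + 1))) fun a b e => p3 (by
    have := Nat.mul_le_mul e.le e.le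
    omega)
  have f0 : Fi.Countable := Set.Countable.setOf_finite.preimage
    (f := fun b : ℕ → Bool => {i | b i = true}) fun a b e => funext fun i =>
      Bool.eq_iff_iff.2 (Set.ext_iff.1 e i)
  refine ⟨_, (s2.union f0).preimage Subtype.val_injective, Function.extend φ W U0, fun n => ?_,
    fun F hF h1 => ?_⟩
  · by_cases e : ∃ j, φ j = n
    · obtain ⟨j, rfl⟩ := e
      rw [a1.extend_apply]
      exact w1 j
    · rw [Function.extend_apply' _ _ _ e]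
      exact u0 n
  let E : Set (ℕ → Bool) := (fun p => p.1.1) '' {p ∈ F | p.1 ∉ S}
  have e1 : E.Finite := (hF.subset fun _ h => h.1).image _
  have e2 : E ⊆ X \ S' := by
    rintro _ ⟨p, hp, rfl⟩
    have e := (h1 p hp.1).resolve_left hp.2
    exact ⟨p.1.2.resolve_right fun f => e (Or.inr f), fun f => e (Or.inl f)⟩
  have e3 : ∃ᶠ j in atTop, ∀ x ∈ E, ∀ i, φ (ψ j) ≤ i → i < φ (ψ (j + 1)) → x i = false := by
    rcases E.eq_empty_or_nonempty with e | e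
    · exact .of_forall fun j x hx => (e ▸ hx : x ∈ (∅ : Set _)).elim
    refine frequently_atTop.2 fun m => ?_
    obtain ⟨n, c1, c2⟩ := ((s3 E e2 e1 e).and_eventually
      (eventually_ge_atTop (m + e1.toFinset.card))).exists
    by_contra! c3
    choose! x x1 i i1 i2 i3 using c3
    have c4 : ∀ j, m ≤ j → ∃ k, Nat.nth (x j · = true) k = i j := fun j hj =>
      Nat.subset_range_nth (p := (x j · = true)) (by simpa using i3 j hj)
    choose! k k1 using c4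
    have c5 := Finset.card_le_card_of_injOn (s := Finset.Icc n (n + n * n))
      (t := e1.toFinset ×ˢ Finset.range n) (fun j => (x j, k j)) (fun j hj => by
        have c6 := Finset.mem_Icc.1 hj
        have c7 : m ≤ j := by omega
        refine Finset.mem_coe.2 (Finset.mem_product.2 ⟨e1.mem_toFinset.2 (x1 j c7),
          Finset.mem_range.2 ((Nat.nth_lt_nth (hX.1 _ (e2 (x1 j c7)).1)).1 ?_)⟩)
        rw [k1 j c7]
        exact ((i2 j c7).trans_le (p3.monotone (by omega : j + 1 ≤ n + n * n + 1))).trans_le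
          (c1 _ (x1 j c7))) fun a ha b hb f => by
        have c6 := Finset.mem_Icc.1 ha
        have c7 := Finset.mem_Icc.1 hb
        have c8 : i a = i b := by
          rw [← k1 a (by omega), ← k1 b (by omega), show x a = x b from (Prod.ext_iff.1 f).1,
            show k a = k b from (Prod.ext_iff.1 f).2]
        have d1 : a < b + 1 := p3.lt_iff_lt.1 ((c8 ▸ i1 a (by omega)).trans_lt (i2 b (by omega)))
        have d2 : b < a + 1 := p3.lt_iff_lt.1 ((c8 ▸ i1 b (by omega)).trans_lt (i2 a (by omega)))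
        omega
    rw [Nat.card_Icc, Finset.card_product, Finset.card_range] at c5
    have := Nat.mul_le_mul_right n (show e1.toFinset.card ≤ n by omega)
    omega
  have e4 : ∀ᶠ j in atTop, ∀ p ∈ F, p.2 ∈ V (ψ j) ∧ (p.1 ∈ S → ∃ k ≤ φ (ψ j), s k = p.1) :=
    (eventually_all_finite hF).2 fun p _ => (p1.tendsto_atTop.eventually (a3 p.2)).and
      (eventually_imp_distrib_left.2 fun e => let ⟨k, hk⟩ := (hs ▸ mem_insert_of_mem _ e : p.1 ∈ range s)
        (p3.tendsto_atTop.eventually_ge_atTop k).mono fun j hj => ⟨k, hj, hk⟩)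
  obtain ⟨j, c1, c2⟩ := (e3.and_eventually e4).exists
  refine ⟨φ (ψ j), fun p hp => ?_⟩
  rw [a1.extend_apply]
  by_cases e : p.1 ∈ S
  · obtain ⟨k, c3, c4⟩ := (c2 p hp).2 e
    have c5 := (w2 _ _ (c2 p hp).1).1 k c3
    rwa [c4] at c5
  · exact (w2 _ _ (c2 p hp).1).2 p.1 fun i c3 c4 => c1 _ ⟨p, ⟨hp, e⟩, rfl⟩ i c3
      (c4.trans ((Nat.le_add_right _ _).trans_lt (p2 j)))

theorem result (X : Set (ℕ → Bool)) (hX : FU X) (Y : Type u) [TopologicalSpace Y]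
    (h : S1 (Z := Y) Om Ga) : S1 (Z := (X ∪ Fi : Set _) × Y) Ga Om := by
  intro 𝓤 hU
  choose g g1 U u1 u2 using fun (i : ℕ) (S : {S : Set (X ∪ Fi : Set _) // S.Countable}) =>
    stage hX h (fun n => 𝓤 (Nat.pair i n)) (fun n => hU _) S.1 S.2
  let S : ℕ → {S : Set (X ∪ Fi : Set _) // S.Countable} := fun i =>
    i.rec ⟨∅, countable_empty⟩ fun i A => ⟨A.1 ∪ g i A, A.2.union (g1 i A)⟩
  have s1 : Monotone fun i => (S i).1 := monotone_nat_of_le_succ fun i => subset_union_left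
  have s2 : ∀ n, U n.unpair.1 (S n.unpair.1) n.unpair.2 ∈ 𝓤 n \ {univ} := fun n => by
    simpa only [Nat.pair_unpair] using u1 n.unpair.1 (S n.unpair.1) n.unpair.2
  refine ⟨fun n => U n.unpair.1 (S n.unpair.1) n.unpair.2, fun n => (s2 n).1, ?_,
    fun ⟨n, e⟩ => (s2 n).2 e, fun F hF => ?_⟩
  · rintro _ ⟨n, rfl⟩
    exact (hU n).1 _ (s2 n).1
  obtain ⟨i, hi⟩ := ((eventually_all_finite hF).2 fun p _ => (by
    by_cases c : ∃ k, p.1 ∈ (S k).1
    · obtain ⟨k, c⟩ := c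
      exact (eventually_ge_atTop k).mono fun i e => Or.inl (s1 e c)
    · exact .of_forall fun i => Or.inr fun e => c ⟨i + 1, Or.inr e⟩ :
      ∀ᶠ i in atTop, p.1 ∈ (S i).1 ∨ p.1 ∉ g i (S i))).exists
  obtain ⟨n, hn⟩ := u2 i (S i) F hF hi
  exact ⟨_, ⟨Nat.pair i n, rfl⟩, by simpa only [Nat.unpair_pair] using hn⟩

end Pool.Agent.Results.MP_fc6768_gt.FinUnb
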